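import Mathlib

/-!
Dirac's generalisation of the Hajos construction need not preserve criticality:
a counterexample with k = 5 and h = 3.
-/

set_option autoImplicit false

namespace Pool.Agent.Results.MP_93b7f4_co.NotCritical

/-- `G` is `k`-critical: its chromatic number is `k` and every proper subgraph has smaller
chromatic number. -/
def IsCritical {V : Type} (k : ℕ) (G : SimpleGraph V) : Prop :=
  G.chromaticNumber = k ∧ ∀ G' : G.Subgraph, G' ≠ ⊤ → G'.coe.chromaticNumber < k

open Classical in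
/-- The vertex of the glued graph that comes from the vertex `v` of the second graph: the vertices
in `H₂` are identified with the vertices in `H₁` along `σ`. -/
noncomputable def glue {V₁ V₂ : Type} (H₁ : Set V₁) (H₂ : Set V₂) (σ : H₁ ≃ H₂) (v : V₂) :
    V₁ ⊕ {v : V₂ // v ∉ H₂} :=
  if h : v ∈ H₂ then Sum.inl (σ.symm ⟨v, h⟩).1 else Sum.inr ⟨v, h⟩

/-- Dirac's construction: take the disjoint union of `G₁` and `G₂`, identify the cliques `H₁` and
`H₂` along `σ` (which sends `x₁` to `σ x₁`), delete the edges `x₁ y₁` and `(σ x₁) y₂` and add the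
edge `y₁ y₂`. -/
noncomputable def dirac {V₁ V₂ : Type} (G₁ : SimpleGraph V₁) (G₂ : SimpleGraph V₂) (H₁ : Set V₁)
    (H₂ : Set V₂) (σ : H₁ ≃ H₂) (x₁ : H₁) (y₁ : V₁) (y₂ : V₂) :
    SimpleGraph (V₁ ⊕ {v : V₂ // v ∉ H₂}) :=
  SimpleGraph.fromRel fun a b =>
    (∃ u v, G₁.Adj u v ∧ s(u, v) ≠ s(x₁.1, y₁) ∧ a = Sum.inl u ∧ b = Sum.inl v) ∨
    (∃ u v, G₂.Adj u v ∧ s(u, v) ≠ s((σ x₁).1, y₂) ∧ a = glue H₁ H₂ σ u ∧ b = glue H₁ H₂ σ v) ∨
    (a = Sum.inl y₁ ∧ b = glue H₁ H₂ σ y₂)

theorem lt5 {x : ℕ∞} (h : x < 5) : x ≤ 4 := by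
  have h5 : (5 : ℕ∞) = 4 + 1 := by norm_num
  rw [h5] at h
  exact (ENat.lt_add_one_iff (by norm_num)).1 h

/-- the edges of the 5-critical graph -/
def edges : List (ℕ × ℕ) := [(0, 1), (0, 2), (0, 3), (0, 4), (1, 2), (1, 6), (1, 7), (1, 8), (2, 4), (2, 5), (2, 7), (2, 9), (3, 4), (3, 5), (3, 6), (3, 8), (3, 9), (4, 5), (4, 9), (5, 6), (5, 7), (6, 7), (6, 8), (7, 8), (8, 9)]

/-- adjacency -/
def adjB (i j : ℕ) : Bool := edges.contains (i, j) || edges.contains (j, i)

theorem adjB_symm (i j : ℕ) : adjB i j = adjB j i := Bool.or_comm _ _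

theorem adjB_irrefl : ∀ i : Fin 10, adjB i i = false := by decide

/-- the 5-critical graph on ten vertices -/
def A : SimpleGraph (Fin 10) where
  Adj i j := adjB i j = true
  symm := ⟨fun i j h => by rw [adjB_symm]; exact h⟩
  loopless := ⟨fun i h => by rw [adjB_irrefl i] at h; exact Bool.noConfusion h⟩

/-- the search -/
def chk (pred : List ℕ → Bool) : List (List ℕ) → List ℕ → Bool
  | [], a => pred a
  | nb :: rest, a => [0, 1, 2, 3].all fun c =>
      (nb.any fun j => Nat.beq (a.getD j 9) c) || chk pred rest (a ++ [c])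

theorem chk_sound (pred : List ℕ → Bool) (col : ℕ → ℕ) (hcol : ∀ i, col i < 4) :
    ∀ (rest : List (List ℕ)) (n : ℕ),
      (∀ (i : ℕ) (h : i < rest.length), ∀ j ∈ rest[i], j < n + i ∧ col j ≠ col (n + i)) →
      chk pred rest ((List.range n).map col) = true →
      pred ((List.range (n + rest.length)).map col) = true := by
  intro rest
  induction rest with
  | nil =>
    intro n _ h
    simpa [chk] using h
  | cons nb rest ih =>
    intro n hnb h
    simp only [chk, List.all_eq_true] at h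
    have hmem : col n ∈ [0, 1, 2, 3] := by
      have := hcol n
      simp only [List.mem_cons, List.not_mem_nil, or_false]
      omega
    have h1 := h (col n) hmem
    rw [Bool.or_eq_true] at h1
    have h2 : chk pred rest ((List.range n).map col ++ [col n]) = true := by
      rcases h1 with h1 | h1
      · exfalso
        rw [List.any_eq_true] at h1
        obtain ⟨j, hj, hj'⟩ := h1
        obtain ⟨k1, k2⟩ := hnb 0 (by simp) j hj
        have k3 : ((List.range n).map col).getD j 9 = col j := by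
          rw [List.getD_eq_getElem?_getD]
          simp [show j < n by simpa using k1]
        rw [k3] at hj'
        exact k2 (by simpa using hj')
      · exact h1
    have h3 : (List.range n).map col ++ [col n] = (List.range (n + 1)).map col := by
      simp [List.range_succ]
    rw [h3] at h2
    have h4 := ih (n + 1) (by
      intro i hi j hj
      have := hnb (i + 1) (by simpa using hi) j (by simpa using hj)
      have e : n + (i + 1) = n + 1 + i := by omega
      rw [e] at this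
      exact this) h2
    have e : n + (nb :: rest).length = n + 1 + rest.length := by
      simp only [List.length_cons]; omega
    rw [e]
    exact h4

/-- neighbour lists of the graph without the edges 0-3 and 1-2 -/
def nbs : List (List ℕ) := (List.range 10).map fun i =>
  (List.range i).filter fun j => adjB j i && !((i == 3) && (j == 0)) && !((i == 2) && (j == 1))

/-- what the search verifies -/
def prd (a : List ℕ) : Bool :=
  if Nat.beq (a.getD 1 9) (a.getD 2 9) then Nat.beq (a.getD 3 9) (a.getD 1 9)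
  else Nat.beq (a.getD 3 9) (a.getD 0 9)

theorem chk_true : chk prd nbs [] = true := by decide +kernel

/-- the key property of the graph -/
theorem key (c : Fin 10 → Fin 4)
    (hc : ∀ u v : Fin 10, A.Adj u v → s(u, v) ≠ s(0, 3) → s(u, v) ≠ s(1, 2) → c u ≠ c v) :
    (c 1 = c 2 → c 3 = c 1) ∧ (c 1 ≠ c 2 → c 3 = c 0) := by
  let col : ℕ → ℕ := fun i => if h : i < 10 then (c ⟨i, h⟩).val else 0
  have hcol : ∀ i, col i < 4 := by
    intro i
    simp only [col]
    split
    · exact (c _).isLt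
    · norm_num
  have h := chk_sound prd col hcol nbs 0 (by
    intro i hi j hj
    have hi' : i < 10 := by simpa [nbs] using hi
    simp only [nbs, List.getElem_map, List.getElem_range, List.mem_filter, List.mem_range,
      Bool.and_eq_true, Bool.not_eq_true'] at hj
    obtain ⟨hji, ⟨h1, h2⟩, h3⟩ := hj
    refine ⟨by omega, ?_⟩
    have hj' : j < 10 := by omega
    have hcc := hc ⟨j, hj'⟩ ⟨i, hi'⟩ h1 (by
      intro h
      rw [Sym2.eq_iff] at h
      rcases h with ⟨e1, e2⟩ | ⟨e1, e2⟩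
      · have e1' : j = 0 := congrArg Fin.val e1
        have e2' : i = 3 := congrArg Fin.val e2
        subst e1' e2'
        simp at h2
      · have e1' : j = 3 := congrArg Fin.val e1
        have e2' : i = 0 := congrArg Fin.val e2
        omega) (by
      intro h
      rw [Sym2.eq_iff] at h
      rcases h with ⟨e1, e2⟩ | ⟨e1, e2⟩
      · have e1' : j = 1 := congrArg Fin.val e1
        have e2' : i = 2 := congrArg Fin.val e2
        subst e1' e2'
        simp at h3
      · have e1' : j = 2 := congrArg Fin.val e1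
        have e2' : i = 1 := congrArg Fin.val e2
        omega)
    rw [Nat.zero_add]
    simp only [col, hi', hj', dif_pos]
    intro h
    exact hcc (Fin.ext h)) chk_true
  have e : (List.range (0 + nbs.length)).map col = [col 0, col 1, col 2, col 3, col 4, col 5, col 6,
      col 7, col 8, col 9] := by
    have : 0 + nbs.length = 10 := by simp [nbs]
    rw [this]
    rfl
  rw [e] at h
  simp only [prd, List.getD_cons_zero, List.getD_cons_succ] at h
  have c0 : col 0 = (c 0).val := rfl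
  have c1 : col 1 = (c 1).val := rfl
  have c2 : col 2 = (c 2).val := rfl
  have c3 : col 3 = (c 3).val := rfl
  rw [c0, c1, c2, c3] at h
  constructor
  · intro h12
    rw [h12] at h ⊢
    simp at h
    exact Fin.ext h
  · intro h12
    have h12' : (c 1).val ≠ (c 2).val := fun h => h12 (Fin.ext h)
    have hb : Nat.beq (c 1).val (c 2).val = false := by
      rw [← Bool.not_eq_true]
      intro hh
      exact h12' (Nat.eq_of_beq_eq_true hh)
    rw [hb] at h
    simp at h
    exact Fin.ext h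

theorem A03 : A.Adj 0 3 := (by decide : adjB 0 3 = true)
theorem A12 : A.Adj 1 2 := (by decide : adjB 1 2 = true)
theorem A01 : A.Adj 0 1 := (by decide : adjB 0 1 = true)
theorem A02 : A.Adj 0 2 := (by decide : adjB 0 2 = true)

theorem A_not4 : ¬ A.Colorable 4 := by
  rintro ⟨c⟩
  have h := (key c (fun u v huv _ _ => c.valid huv)).2 (c.valid A12)
  exact c.valid A03 h.symm

/-- a 5-colouring -/
def c5 : List ℕ := [0, 1, 2, 1, 3, 0, 2, 3, 0, 4]

theorem c5_ok : ∀ u v : Fin 10, adjB u v = true → c5.getD u 0 ≠ c5.getD v 0 := by decide +kernel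
theorem c5_lt : ∀ u : Fin 10, c5.getD u 0 < 5 := by decide +kernel

theorem A_5 : A.Colorable 5 :=
  ⟨SimpleGraph.Coloring.mk (fun u => (⟨c5.getD u 0, c5_lt u⟩ : Fin 5)) (by
    intro u v huv h
    exact c5_ok u v huv (congrArg Fin.val h))⟩

/-- 4-colourings after deleting one edge -/
def tabs : List (List ℕ) := [[0, 0, 1, 2, 3, 0, 1, 2, 3, 0], [0, 1, 0, 2, 3, 1, 0, 2, 3, 1], [0, 1, 2, 0, 3, 1, 2, 0, 3, 1], [0, 1, 2, 3, 0, 1, 0, 3, 2, 1], [0, 1, 1, 1, 2, 0, 2, 3, 0, 3], [0, 1, 2, 2, 1, 0, 1, 3, 0, 3], [0, 1, 2, 1, 3, 0, 2, 1, 3, 0], [0, 1, 2, 2, 3, 1, 0, 3, 1, 0], [0, 1, 2, 1, 2, 0, 2, 3, 0, 3], [0, 1, 2, 1, 3, 2, 0, 3, 2, 0], [0, 1, 2, 2, 1, 0, 3, 2, 0, 3], [0, 1, 2, 1, 3, 0, 2, 3, 0, 2], [0, 1, 2, 1, 1, 0, 2, 3, 0, 3], [0, 1, 2, 1, 3, 1, 0, 3, 2, 0], [0, 1, 2, 2, 1, 0, 2, 3, 0, 3], [0, 1, 2, 2, 3, 1, 0, 3, 2, 0], [0, 1, 2, 1, 3, 0, 2, 3, 0, 1], [0, 1, 2, 1, 3, 3, 2, 0, 3, 0], [0, 1, 2, 1, 3, 0, 2, 3, 0, 3], [0, 1, 2, 1, 3, 0, 0, 3, 2, 0], [0, 1, 2, 1, 3, 0,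 2, 0, 3, 0], [0, 1, 2, 1, 3, 0, 3, 3, 2, 0], [0, 1, 2, 1, 3, 0, 2, 3, 2, 0], [0, 1, 2, 1, 3, 0, 2, 3, 3, 0], [0, 1, 2, 1, 3, 0, 2, 3, 0, 0]]

/-- the colouring for the edge `a b` -/
def tcol (a b : Fin 10) (u : Fin 10) : Fin 4 :=
  Fin.ofNat 4 ((tabs.getD (min (edges.idxOf (a.1, b.1)) (edges.idxOf (b.1, a.1))) []).getD u 0)

theorem tcol_ok : ∀ a b : Fin 10, adjB a b = true → ∀ u v : Fin 10, adjB u v = true →
    tcol a b u = tcol a b v → (u = a ∧ v = b) ∨ (u = b ∧ v = a) := by decide +kernel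

theorem nbr : ∀ v : Fin 10, ∃ w : Fin 10, adjB v w = true := by decide +kernel

theorem A_crit : IsCritical 5 A := by
  refine ⟨?_, ?_⟩
  · apply le_antisymm
    · exact A_5.chromaticNumber_le
    · by_contra h
      push Not at h
      apply A_not4
      rw [← SimpleGraph.chromaticNumber_le_iff_colorable]
      exact lt5 h
  · intro G' hG'
    have h1 : ∃ a b, A.Adj a b ∧ ¬ G'.Adj a b := by
      by_contra hcon
      push Not at hcon
      apply hG'
      apply SimpleGraph.Subgraph.ext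
      · apply Set.eq_univ_of_forall
        intro v
        obtain ⟨w, hw⟩ := nbr v
        exact (hcon v w hw).fst_mem
      · funext a b
        apply propext
        constructor
        · intro h; exact h.adj_sub
        · intro h; exact hcon a b h
    obtain ⟨a, b, hab, hn⟩ := h1
    have hc : G'.coe.Colorable 4 := by
      refine ⟨SimpleGraph.Coloring.mk (fun u => tcol a b u.1) ?_⟩
      intro u v huv h
      have huv' : G'.Adj u.1 v.1 := huv
      rcases tcol_ok a b hab u.1 v.1 huv'.adj_sub h with ⟨e1, e2⟩ | ⟨e1, e2⟩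
      · rw [e1, e2] at huv'; exact hn huv'
      · rw [e1, e2] at huv'; exact hn huv'.symm
    refine lt_of_le_of_lt hc.chromaticNumber_le ?_
    norm_num

/-- the triangle -/
def T : Set (Fin 10) := {0, 1, 2}

theorem glue_mem (v : Fin 10) (h : v ∈ T) : glue T T (Equiv.refl T) v = Sum.inl v := by
  simp only [glue]
  rw [dif_pos h]
  rfl

theorem result : ∃ (V₁ V₂ : Type) (_ : Fintype V₁) (_ : Fintype V₂) (G₁ : SimpleGraph V₁)
    (G₂ : SimpleGraph V₂) (H₁ : Set V₁) (H₂ : Set V₂) (σ : H₁ ≃ H₂) (x₁ : H₁) (y₁ : V₁) (y₂ : V₂),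
    IsCritical 5 G₁ ∧ IsCritical 5 G₂ ∧ G₁.IsClique H₁ ∧ G₂.IsClique H₂ ∧ H₁.ncard = 3 ∧
    y₁ ∉ H₁ ∧ y₂ ∉ H₂ ∧ G₁.Adj x₁ y₁ ∧ G₂.Adj (σ x₁) y₂ ∧
    ¬ IsCritical 5 (dirac G₁ G₂ H₁ H₂ σ x₁ y₁ y₂) := by
  have hclique : A.IsClique T := by
    intro a ha b hb hab
    simp only [T, Set.mem_insert_iff, Set.mem_singleton_iff] at ha hb
    rcases ha with rfl | rfl | rfl <;> rcases hb with rfl | rfl | rfl
    · exact absurd rfl hab
    · exact A01
    · exact A02
    · exact A01.symm
    · exact absurd rfl hab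
    · exact A12
    · exact A02.symm
    · exact A12.symm
    · exact absurd rfl hab
  have h3T : (3 : Fin 10) ∉ T := by
    simp [T]
  have hcard : T.ncard = 3 := by
    have : T = (({0, 1, 2} : Finset (Fin 10)) : Set (Fin 10)) := by
      ext x; simp [T]
    rw [this, Set.ncard_coe_finset]
    rfl
  refine ⟨Fin 10, Fin 10, inferInstance, inferInstance, A, A, T, T, Equiv.refl T, ⟨0, by simp [T]⟩,
    3, 3, A_crit, A_crit, hclique, hclique, hcard, h3T, h3T, A03, A03, ?_⟩
  intro hcrit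
  set D := dirac A A T T (Equiv.refl T) ⟨0, by simp [T]⟩ 3 3 with hD
  have e12 : (s((1 : Fin 10), 2)) ≠ s(0, 3) := by decide
  have hadj1 : ∀ u v : Fin 10, A.Adj u v → s(u, v) ≠ s(0, 3) → D.Adj (Sum.inl u) (Sum.inl v) := by
    intro u v huv hne
    rw [hD, dirac, SimpleGraph.fromRel_adj]
    exact ⟨fun h => huv.ne (Sum.inl.inj h), Or.inl (Or.inl ⟨u, v, huv, hne, rfl, rfl⟩)⟩
  have hginj : Function.Injective (glue T T (Equiv.refl T)) := by
    intro u v h
    simp only [glue] at h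
    split at h
    · split at h
      · exact Sum.inl.inj h
      · cases h
    · split at h
      · cases h
      · exact congrArg Subtype.val (Sum.inr.inj h)
  have hadj2 : ∀ u v : Fin 10, A.Adj u v → s(u, v) ≠ s(0, 3) →
      D.Adj (glue T T (Equiv.refl T) u) (glue T T (Equiv.refl T) v) := by
    intro u v huv hne
    rw [hD, dirac, SimpleGraph.fromRel_adj]
    exact ⟨fun h => huv.ne (hginj h), Or.inl (Or.inr (Or.inl ⟨u, v, huv, hne, rfl, rfl⟩))⟩
  have hadj3 : D.Adj (Sum.inl 3) (glue T T (Equiv.refl T) 3) := by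
    rw [hD, dirac, SimpleGraph.fromRel_adj]
    refine ⟨?_, Or.inl (Or.inr (Or.inr ⟨rfl, rfl⟩))⟩
    simp only [glue]
    rw [dif_neg h3T]
    intro h
    cases h
  let G' : D.Subgraph := (⊤ : D.Subgraph).deleteEdges {s(Sum.inl 1, Sum.inl 2)}
  have hne : G' ≠ ⊤ := by
    intro h
    have h1 : (⊤ : D.Subgraph).Adj (Sum.inl 1) (Sum.inl 2) := hadj1 1 2 A12 e12
    rw [← h] at h1
    simp [G', SimpleGraph.Subgraph.deleteEdges_adj] at h1
  have hlt := hcrit.2 G' hne
  have hcol : G'.coe.Colorable 4 := by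
    rw [← SimpleGraph.chromaticNumber_le_iff_colorable]
    exact lt5 hlt
  obtain ⟨c⟩ := hcol
  have hv : ∀ x, x ∈ G'.verts := fun x => Set.mem_univ x
  let f : (Fin 10 ⊕ {v : Fin 10 // v ∉ T}) → Fin 4 := fun x => c ⟨x, hv x⟩
  have hf : ∀ a b, D.Adj a b → s(a, b) ≠ s(Sum.inl 1, Sum.inl 2) → f a ≠ f b := by
    intro a b hab hne'
    apply c.valid
    change G'.Adj a b
    simp only [G', SimpleGraph.Subgraph.deleteEdges_adj]
    exact ⟨hab, hne'⟩
  have k1 := key (fun u => f (Sum.inl u)) (by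
    intro u v huv h1 h2
    apply hf _ _ (hadj1 u v huv h1)
    intro h
    apply h2
    rw [Sym2.eq_iff] at h ⊢
    rcases h with ⟨a1, a2⟩ | ⟨a1, a2⟩
    · left; exact ⟨Sum.inl.inj a1, Sum.inl.inj a2⟩
    · right; exact ⟨Sum.inl.inj a1, Sum.inl.inj a2⟩)
  have g0 := glue_mem 0 (by simp [T])
  have g1 := glue_mem 1 (by simp [T])
  have g2 := glue_mem 2 (by simp [T])
  have k2 := key (fun u => f (glue T T (Equiv.refl T) u)) (by
    intro u v huv h1 h2
    apply hf _ _ (hadj2 u v huv h1)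
    intro h
    apply h2
    rw [← g1, ← g2, Sym2.eq_iff] at h
    rw [Sym2.eq_iff]
    rcases h with ⟨a1, a2⟩ | ⟨a1, a2⟩
    · left; exact ⟨hginj a1, hginj a2⟩
    · right; exact ⟨hginj a1, hginj a2⟩)
  simp only [g0, g1, g2] at k2
  have hfin : f (Sum.inl 3) ≠ f (glue T T (Equiv.refl T) 3) := by
    apply hf _ _ hadj3
    intro h
    rw [Sym2.eq_iff] at h
    rcases h with ⟨a1, a2⟩ | ⟨a1, a2⟩
    · exact absurd (Sum.inl.inj a1) (by decide)
    · exact absurd (Sum.inl.inj a1) (by decide)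
  apply hfin
  by_cases h12 : f (Sum.inl 1) = f (Sum.inl 2)
  · exact (k1.1 h12).trans (k2.1 h12).symm
  · exact (k1.2 h12).trans (k2.2 h12).symm

end Pool.Agent.Results.MP_93b7f4_co.NotCritical
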